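import Pool.Agent.Lib.H12D.Sparse

/-!
The sparsity theorem for central sets: linear algebra and conclusion.
-/

set_option autoImplicit false

namespace Pool.Agent.H12D

open Finset
open Pool.Agent.H61C

/-- Independent functionals define a surjective map. -/
theorem pi_surj {n m : ℕ} (φ : Fin m → Module.Dual ℝ (Fin n → ℝ)) (hφ : LinearIndependent ℝ φ) :
    Function.Surjective (LinearMap.pi φ : (Fin n → ℝ) →ₗ[ℝ] (Fin m → ℝ)) := by
  rw [← LinearMap.range_eq_top]
  by_contra hne
  obtain ⟨f, hf0, hf⟩ := Submodule.exists_le_ker_of_lt_top _ (lt_top_iff_ne_top.2 hne)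
  apply hf0
  have h1 : ∑ i, f (Pi.single i 1) • φ i = 0 := by
    ext v
    have h2 : f (LinearMap.pi φ (Pi.single v 1)) = 0 := by
      have := hf (LinearMap.mem_range_self (LinearMap.pi φ) (Pi.single v 1))
      simpa using this
    have h3 : (LinearMap.pi φ (Pi.single v 1) : Fin m → ℝ)
        = ∑ i, (φ i (Pi.single v 1)) • (Pi.single i (1 : ℝ) : Fin m → ℝ) := by
      ext j
      simp [Finset.sum_apply, Pi.single_apply]
    rw [h3, map_sum] at h2
    simp only [map_smul, smul_eq_mul] at h2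
    simp only [LinearMap.coe_comp, LinearMap.coe_single, Function.comp_apply,
      LinearMap.coe_sum, Finset.sum_apply, LinearMap.smul_apply, smul_eq_mul, LinearMap.zero_apply]
    rw [← h2]
    exact sum_congr rfl fun i _ => by ring
  have h4 := Fintype.linearIndependent_iff.1 hφ _ h1
  ext v
  simpa using h4 v

theorem le_of_indep {n m : ℕ} (φ : Fin m → Module.Dual ℝ (Fin n → ℝ))
    (hφ : LinearIndependent ℝ φ) : m ≤ n := by
  have := hφ.fintype_card_le_finrank
  simpa using this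

/-- A complementary map. -/
theorem exists_compl {n m : ℕ} (Φ : (Fin n → ℝ) →ₗ[ℝ] (Fin m → ℝ))
    (hs : Function.Surjective Φ) :
    ∃ Ψ : (Fin n → ℝ) →ₗ[ℝ] (Fin (n - m) → ℝ), ∀ z, Φ z = 0 → Ψ z = 0 → z = 0 := by
  set K := LinearMap.ker Φ with hK
  obtain ⟨g, hg⟩ := LinearMap.exists_leftInverse_of_injective K.subtype (Submodule.ker_subtype K)
  have hr : Module.finrank ℝ K = Module.finrank ℝ (Fin (n - m) → ℝ) := by
    have h1 := LinearMap.finrank_range_add_finrank_ker Φ
    rw [LinearMap.range_eq_top.2 hs, finrank_top] at h1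
    simp only [Module.finrank_fin_fun] at h1 ⊢
    rw [← hK] at h1
    omega
  set e : K ≃ₗ[ℝ] (Fin (n - m) → ℝ) := LinearEquiv.ofFinrankEq _ _ hr
  refine ⟨e.toLinearMap.comp g, fun z hz hz' => ?_⟩
  have hzK : z ∈ K := hz
  have h1 : g z = ⟨z, hzK⟩ := by
    have := LinearMap.congr_fun hg ⟨z, hzK⟩
    simpa using this
  have h2 : e (g z) = 0 := by simpa using hz'
  rw [h1] at h2
  have h3 : (⟨z, hzK⟩ : K) = 0 := e.map_eq_zero_iff.1 h2
  exact congrArg Subtype.val h3

/-- The map used for points with few nonzero coordinates. -/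
noncomputable def Tm {n m : ℕ} (r : ℕ) (φ : Fin m → Module.Dual ℝ (Fin n → ℝ))
    (Ψ : (Fin n → ℝ) →ₗ[ℝ] (Fin (n - m) → ℝ)) :
    (Fin n → ℝ) →ₗ[ℝ] (Fin r ⊕ Fin (n - m) → ℝ) :=
  LinearMap.pi (Sum.elim (fun l => ∑ i : Fin m, (((i : ℕ) : ℝ) ^ (l : ℕ)) • φ i)
    (fun j => (LinearMap.proj j).comp Ψ))

theorem Tm_inl {n m : ℕ} (r : ℕ) (φ : Fin m → Module.Dual ℝ (Fin n → ℝ))
    (Ψ : (Fin n → ℝ) →ₗ[ℝ] (Fin (n - m) → ℝ)) (z : Fin n → ℝ) (l : Fin r) :
    Tm r φ Ψ z (Sum.inl l) = ∑ i : Fin m, ((i : ℕ) : ℝ) ^ (l : ℕ) * φ i z := by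
  simp [Tm, LinearMap.sum_apply]

theorem Tm_inr {n m : ℕ} (r : ℕ) (φ : Fin m → Module.Dual ℝ (Fin n → ℝ))
    (Ψ : (Fin n → ℝ) →ₗ[ℝ] (Fin (n - m) → ℝ)) (z : Fin n → ℝ) (j : Fin (n - m)) :
    Tm r φ Ψ z (Sum.inr j) = Ψ z j := by
  simp [Tm]

theorem Tm_proper {n m : ℕ} (r : ℕ) (φ : Fin m → Module.Dual ℝ (Fin n → ℝ))
    (Ψ : (Fin n → ℝ) →ₗ[ℝ] (Fin (n - m) → ℝ))
    (hΨ : ∀ z, (LinearMap.pi φ : (Fin n → ℝ) →ₗ[ℝ] (Fin m → ℝ)) z = 0 → Ψ z = 0 → z = 0)
    (I : Finset (Fin m)) (hI : I.card ≤ r) :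
    ∃ K : ℝ, ∀ z, (∀ i, i ∉ I → φ i z = 0) → ‖z‖ ≤ K * ‖Tm r φ Ψ z‖ := by
  classical
  set U : Submodule ℝ (Fin n → ℝ) := ⨅ i : {i // i ∉ I}, LinearMap.ker (φ i) with hU
  have hmem : ∀ z, z ∈ U ↔ ∀ i, i ∉ I → φ i z = 0 := by
    intro z
    simp [hU, Submodule.mem_iInf]
  set f := (Tm r φ Ψ).domRestrict U with hf
  have hker : LinearMap.ker f = ⊥ := by
    rw [LinearMap.ker_eq_bot']
    rintro ⟨z, hz⟩ h0
    have h1 : Tm r φ Ψ z = 0 := h0
    have hzI := (hmem z).1 hz
    have h2 : (fun i => φ i z) = (0 : Fin m → ℝ) := by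
      refine vander_inj (r := r) _ ((card_le_card ?_).trans hI) fun l hl => ?_
      · intro i hi
        by_contra hc
        exact (mem_filter.1 hi).2 (hzI i hc)
      · have := congrFun h1 (Sum.inl ⟨l, hl⟩)
        rw [Tm_inl] at this
        exact this
    have h3 : Ψ z = 0 := by
      ext j
      have := congrFun h1 (Sum.inr j)
      rw [Tm_inr] at this
      exact this
    have h4 : z = 0 := hΨ z h2 h3
    exact Subtype.ext h4
  obtain ⟨K, _, hK⟩ := f.exists_antilipschitzWith hker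
  refine ⟨K, fun z hz => ?_⟩
  have h1 := hK.le_mul_dist (⟨z, (hmem z).2 hz⟩ : U) 0
  rw [map_zero, dist_zero_right, dist_zero_right] at h1
  exact h1

/-- Integer points near a real point. -/
theorem finite_near {n : ℕ} (a : Fin n → ℝ) (R : ℝ) :
    {v : Fin n → ℤ | ‖(fun j => (v j : ℝ)) - a‖ ≤ R}.Finite := by
  refine (Set.finite_Icc (fun j => ⌊a j - R⌋) (fun j => ⌈a j + R⌉)).subset ?_
  intro v hv
  have h1 : ∀ j, |(v j : ℝ) - a j| ≤ R := by
    intro j
    have := norm_le_pi_norm ((fun j => (v j : ℝ)) - a) j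
    rw [Real.norm_eq_abs] at this
    exact this.trans hv
  constructor
  · intro j
    have := (abs_le.1 (h1 j)).1
    exact Int.cast_le (R := ℝ).1 ((Int.floor_le _).trans (by linarith))
  · intro j
    have := (abs_le.1 (h1 j)).2
    exact Int.cast_le (R := ℝ).1 (le_trans (by linarith) (Int.le_ceil _))

/-- The sparsity theorem. -/
theorem sparse {n m s : ℕ} (hs : 1 ≤ s) (hm : 16 * s ^ 2 + 2 ≤ m)
    (φ : Fin m → Module.Dual ℝ (Fin n → ℝ)) (hφ : LinearIndependent ℝ φ) (t : Fin m → ℝ)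
    (E : Set (Fin n → ℤ)) (hE : Central E) :
    ∃ x ∈ E, s < (univ.filter fun i => φ i (fun j => (x j : ℝ)) ≠ t i).card := by
  classical
  by_contra hcon
  push Not at hcon
  have hmn := le_of_indep φ hφ
  have hsurj := pi_surj φ hφ
  obtain ⟨Ψ, hΨ⟩ := exists_compl (LinearMap.pi φ) hsurj
  obtain ⟨a, ha⟩ := hsurj t
  have ha' : ∀ i, φ i a = t i := fun i => congrFun ha i
  set r := 8 * s ^ 2 with hr
  have hs2 : 1 ≤ s ^ 2 := Nat.one_le_pow _ _ hs
  set k := Nat.log 2 (m / 4) with hk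
  have hm4 : m / 4 ≠ 0 := by omega
  have hk1 : 2 ^ k ≤ m / 4 := Nat.pow_log_le_self 2 hm4
  have hk2 : m / 4 < 2 ^ (k + 1) := Nat.lt_pow_succ_log_self (by norm_num) _
  have hk3 : m < 8 * 2 ^ k := by
    rw [pow_succ] at hk2
    omega
  have hkpos : 0 < 2 ^ k := by positivity
  obtain ⟨H, hH⟩ := exists_had k
  set β : Fin m → Fin (2 ^ k) := fun i => ⟨i % 2 ^ k, Nat.mod_lt _ hkpos⟩ with hβ
  have hβ8 : ∀ b, (univ.filter fun i => β i = b).card ≤ 8 := by
    intro b
    have : (univ.filter fun i => β i = b).card ≤ (range 8).card := by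
      refine card_le_card_of_injOn (fun i => (i : ℕ) / 2 ^ k) ?_ ?_
      · intro i _
        simp only [coe_range, Set.mem_Iio]
        rw [Nat.div_lt_iff_lt_mul hkpos]
        exact i.2.trans hk3
      · intro i hi j hj hij
        simp only [coe_filter, mem_univ, true_and, Set.mem_ofPred_eq] at hi hj
        have h1 : (i : ℕ) % 2 ^ k = (j : ℕ) % 2 ^ k := by
          have := hi.trans hj.symm
          exact congrArg Fin.val this
        have h2 : (i : ℕ) / 2 ^ k = (j : ℕ) / 2 ^ k := hij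
        apply Fin.ext
        rw [← Nat.div_add_mod (i : ℕ) (2 ^ k), ← Nat.div_add_mod (j : ℕ) (2 ^ k), h1, h2]
    simpa using this
  -- the coordinates of a lattice point
  set z : (Fin n → ℤ) → (Fin n → ℝ) := fun v => (fun j => (v j : ℝ)) - a with hz
  set y : (Fin n → ℤ) → (Fin m → ℝ) := fun v i => φ i (z v) with hy
  set T := Tm r φ Ψ with hT
  have hzz : ∀ x v, z v + z (2 • x - v) = (2 : ℝ) • z x := by
    intro x v
    ext j
    simp only [hz, Pi.add_apply, Pi.sub_apply, Pi.smul_apply, smul_eq_mul, nsmul_eq_mul]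
    push_cast
    simp
    ring
  have hyy : ∀ x v i, y v i + y (2 • x - v) i = 2 * y x i := by
    intro x v i
    simp only [hy]
    rw [← map_add, hzz, map_smul, smul_eq_mul]
  have hyx : ∀ x i, y x i = φ i (fun j => (x j : ℝ)) - t i := by
    intro x i
    simp only [hy, hz]
    rw [map_sub, ha']
  -- the colouring
  set Col := (Fin (2 ^ k) × Bool) ⊕ Option (Fin r ⊕ Fin (n - m)) with hCol
  have hcol : ∀ v : Fin n → ℤ, ∃ c : Col,
      (∀ j, c = Sum.inl (j, true) → (s : ℝ) < tr H β (y v) j) ∧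
      (∀ j, c = Sum.inl (j, false) → tr H β (y v) j < - (s : ℝ)) ∧
      (∀ o, c = Sum.inr o → (univ.filter fun i => y v i ≠ 0).card ≤ r ∧
        ‖T (z v)‖ ≤ (Fintype.card (Fin r ⊕ Fin (n - m)) + 1) * fan (T (z v)) o) := by
    intro v
    by_cases hv : (univ.filter fun i => y v i ≠ 0).card ≤ r
    · obtain ⟨o, ho⟩ := exists_fan (T (z v))
      refine ⟨Sum.inr o, fun j hj => ?_, fun j hj => ?_, fun o' ho' => ?_⟩
      · exact absurd hj Sum.inr_ne_inl
      · exact absurd hj Sum.inr_ne_inl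
      · have : o = o' := Sum.inr.inj ho'
        subst this
        exact ⟨hv, ho⟩
    · push Not at hv
      obtain ⟨j, hj⟩ := exists_tr hH β hβ8 (y v) s hv
      rcases lt_abs.1 hj with h1 | h1
      · refine ⟨Sum.inl (j, true), fun j' hj' => ?_, fun j' hj' => ?_, fun o ho => ?_⟩
        · have : j = j' := congrArg Prod.fst (Sum.inl.inj hj')
          subst this
          exact h1
        · exact absurd (congrArg Prod.snd (Sum.inl.inj hj')) (by simp)
        · exact absurd ho Sum.inl_ne_inr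
      · refine ⟨Sum.inl (j, false), fun j' hj' => ?_, fun j' hj' => ?_, fun o ho => ?_⟩
        · exact absurd (congrArg Prod.snd (Sum.inl.inj hj')) (by simp)
        · have : j = j' := congrArg Prod.fst (Sum.inl.inj hj')
          subst this
          linarith
        · exact absurd ho Sum.inl_ne_inr
  choose c0 hc1 hc2 hc3 using hcol
  have hcard : Fintype.card Col ≤ n := by
    simp only [hCol, Fintype.card_sum, Fintype.card_prod, Fintype.card_fin, Fintype.card_bool,
      Fintype.card_option]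
    omega
  set emb : Col ↪ Fin n := (Fintype.equivFin Col).toEmbedding.trans (Fin.castLEEmb hcard)
  obtain ⟨i0, A, x, hAinf, hAc, hxE, hsym⟩ := hE n le_rfl (fun v => emb (c0 v))
  have hw : (univ.filter fun i => y x i ≠ 0).card ≤ s := by
    refine le_trans (card_le_card ?_) (hcon x hxE)
    intro i hi
    simp only [mem_filter, mem_univ, true_and] at hi ⊢
    intro hc
    exact hi (by rw [hyx, hc, sub_self])
  apply hAinf
  -- the symmetric set is contained in a finite set
  set D : ℝ := Fintype.card (Fin r ⊕ Fin (n - m)) + 1 with hD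
  have hDpos : 0 < D := by positivity
  set C : ℝ := ∑ o, |fan (T ((2 : ℝ) • z x)) o| with hC
  have hprop : ∀ I : Finset (Fin m), ∃ K : ℝ, I.card ≤ r →
      ∀ u, (∀ i, i ∉ I → φ i u = 0) → ‖u‖ ≤ K * ‖T u‖ := by
    intro I
    by_cases hI : I.card ≤ r
    · obtain ⟨K, hK⟩ := Tm_proper r φ Ψ hΨ I hI
      exact ⟨K, fun _ => hK⟩
    · exact ⟨0, fun h => absurd h hI⟩
  choose K hK using hprop
  refine (Set.finite_iUnion (fun I : Finset (Fin m) => finite_near a (|K I| * (D * C)))).subset ?_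
  intro v hv
  have hv' : 2 • x - v ∈ A := by
    rw [hsym]
    exact ⟨v, hv, rfl⟩
  have hcc : c0 v = c0 (2 • x - v) := emb.injective ((hAc v hv).trans (hAc _ hv').symm)
  rcases hcv : c0 v with ⟨j, b⟩ | o
  · exfalso
    cases b with
    | true =>
      have h1 := hc1 v j hcv
      have h2 := hc1 (2 • x - v) j (by rw [← hcc, hcv])
      have h3 := tr_add hH β (y v) (y (2 • x - v)) (y x) s hw (hyy x v) j
      linarith
    | false =>
      have h1 := hc2 v j hcv
      have h2 := hc2 (2 • x - v) j (by rw [← hcc, hcv])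
      have h3 := tr_add hH β (fun i => - y v i) (fun i => - y (2 • x - v) i) (fun i => - y x i) s
        (by simpa using hw) (fun i => by
          have := hyy x v i
          linarith) j
      rw [tr_neg, tr_neg] at h3
      linarith
  · obtain ⟨h1, h2⟩ := hc3 v o hcv
    obtain ⟨_, h3⟩ := hc3 (2 • x - v) o (by rw [← hcc, hcv])
    have h4 : fan (T (z v)) o + fan (T (z (2 • x - v))) o = fan (T ((2 : ℝ) • z x)) o := by
      rw [← fan_add, ← map_add, hzz]
    have h5 : 0 ≤ fan (T (z (2 • x - v))) o := by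
      have := (norm_nonneg _).trans h3
      exact nonneg_of_mul_nonneg_right this hDpos
    have h6 : fan (T ((2 : ℝ) • z x)) o ≤ C := by
      refine (le_abs_self _).trans ?_
      exact single_le_sum (f := fun o => |fan (T ((2 : ℝ) • z x)) o|)
        (fun o _ => abs_nonneg _) (mem_univ o)
    have h7 : ‖T (z v)‖ ≤ D * C := by
      refine h2.trans ?_
      exact mul_le_mul_of_nonneg_left (by linarith) hDpos.le
    rw [Set.mem_iUnion]
    refine ⟨univ.filter fun i => y v i ≠ 0, ?_⟩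
    have h8 := hK (univ.filter fun i => y v i ≠ 0) h1 (z v) (fun i hi => by
      by_contra hc
      exact hi (by simp only [mem_filter, mem_univ, true_and]; exact hc))
    show ‖z v‖ ≤ _
    refine h8.trans ?_
    refine (mul_le_mul_of_nonneg_right (le_abs_self _) (norm_nonneg _)).trans ?_
    exact mul_le_mul_of_nonneg_left h7 (abs_nonneg _)

end Pool.Agent.H12D
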