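import Pool.Agent.Lib.H12D.Peel
import Pool.Agent.Lib.H12D.Main

/-!
A finite set covered by `n - 1` successive supporting hyperplanes is not central; every central set
of `ℤ^n` has at least `n² - 2 n + 3` points.
-/

set_option autoImplicit false

namespace Pool.Agent.H12D

open Finset
open Pool.Agent.H61C

theorem cov_lists {n : ℕ} (k : ℕ) : ∀ (S : Submodule ℝ (Du n)) (Y : Finset (Fin n → ℝ)),
    Cov k S Y → ∃ (u : Fin k → Du n) (a : Fin k → ℝ), LinearIndependent ℝ u ∧
      Disjoint (Submodule.span ℝ (Set.range u)) S ∧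
      ∀ y ∈ Y, ∃ i, u i y = a i ∧ ∀ l < i, u l y < a l := by
  induction k with
  | zero =>
    intro S Y hY
    refine ⟨fun i => i.elim0, fun i => i.elim0, linearIndependent_empty_type, ?_, ?_⟩
    · simp
    · intro y hy
      have : Y = ∅ := hY
      rw [this] at hy
      simp at hy
  | succ k ih =>
    intro S Y hY
    obtain ⟨u0, a0, hu0, hle, Y', hY', hcov⟩ := hY
    obtain ⟨u, a, hli, hdis, hcover⟩ := ih _ _ hcov
    have hu00 : u0 ≠ 0 := fun h => hu0 (by rw [h]; exact S.zero_mem)
    refine ⟨Fin.cons u0 u, Fin.cons a0 a, ?_, ?_, ?_⟩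
    · rw [linearIndependent_finCons]
      refine ⟨hli, fun h => hu00 ?_⟩
      have h2 : u0 ∈ S ⊔ Submodule.span ℝ {u0} :=
        Submodule.mem_sup_right (Submodule.mem_span_singleton_self u0)
      exact Submodule.disjoint_def.1 hdis u0 h h2
    · rw [Submodule.disjoint_def]
      intro s hs hsS
      rw [Fin.range_cons, Submodule.span_insert] at hs
      obtain ⟨v, hv, t, ht, hvt⟩ := Submodule.mem_sup.1 hs
      obtain ⟨c, rfl⟩ := Submodule.mem_span_singleton.1 hv
      have h1 : t ∈ S ⊔ Submodule.span ℝ {u0} := by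
        have : t = s - c • u0 := by
          rw [← hvt]
          abel
        rw [this]
        exact Submodule.sub_mem _ (Submodule.mem_sup_left hsS)
          (Submodule.mem_sup_right (Submodule.smul_mem _ _ (Submodule.mem_span_singleton_self u0)))
      have h2 : t = 0 := Submodule.disjoint_def.1 hdis t ht h1
      rw [h2, add_zero] at hvt
      by_cases hc : c = 0
      · rw [← hvt, hc, zero_smul]
      · exfalso
        apply hu0
        have h3 : u0 = c⁻¹ • s := by
          rw [← hvt, smul_smul, inv_mul_cancel₀ hc, one_smul]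
        rw [h3]
        exact S.smul_mem _ hsS
    · intro y hy
      rcases (hle y hy).lt_or_eq with h | h
      · obtain ⟨i, hi1, hi2⟩ := hcover y (hY' y hy h)
        refine ⟨i.succ, by simpa using hi1, fun l hl => ?_⟩
        refine Fin.cases ?_ (fun l' => ?_) l hl
        · intro _
          simpa using h
        · intro hl'
          simpa using hi2 l' (Fin.succ_lt_succ_iff.1 hl')
      · exact ⟨0, by simpa using h, fun l hl => absurd hl (Fin.not_lt_zero l)⟩

/-- The point of `ℝ^n` defined by a lattice point. -/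
def pt {n : ℕ} (v : Fin n → ℤ) : Fin n → ℝ := fun j => (v j : ℝ)

theorem pt_add {n : ℕ} (u : Du n) (x v : Fin n → ℤ) :
    u (pt v) + u (pt (2 • x - v)) = 2 * u (pt x) := by
  rw [← map_add]
  have : pt v + pt (2 • x - v) = (2 : ℝ) • pt x := by
    ext j
    simp only [pt, Pi.add_apply, Pi.sub_apply, Pi.smul_apply, smul_eq_mul, nsmul_eq_mul]
    push_cast
    simp
  rw [this, map_smul, smul_eq_mul]

theorem finite_box {k : ℕ} (u : Fin k → Du (k + 1)) (w : Du (k + 1))
    (hli : LinearIndependent ℝ (Fin.cons w u : Fin (k + 1) → Du (k + 1))) (C : ℝ) :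
    {v : Fin (k + 1) → ℤ | (∀ i, |u i (pt v)| ≤ C) ∧ |w (pt v)| ≤ C}.Finite := by
  have hs := pi_surj _ hli
  set Φ : (Fin (k + 1) → ℝ) →ₗ[ℝ] (Fin (k + 1) → ℝ) :=
    LinearMap.pi (Fin.cons w u : Fin (k + 1) → Du (k + 1)) with hΦ
  have hi : Function.Injective Φ := LinearMap.injective_iff_surjective.2 hs
  obtain ⟨K, _, hK⟩ := Φ.exists_antilipschitzWith (LinearMap.ker_eq_bot.2 hi)
  refine (finite_near (0 : Fin (k + 1) → ℝ) (K * |C|)).subset ?_
  rintro v ⟨hv1, hv2⟩
  have h1 := hK.le_mul_dist (pt v) 0
  rw [map_zero, dist_zero_right, dist_zero_right] at h1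
  have h2 : ‖Φ (pt v)‖ ≤ |C| := by
    refine (pi_norm_le_iff_of_nonneg (abs_nonneg C)).2 fun i => ?_
    rw [Real.norm_eq_abs]
    refine Fin.cases ?_ (fun i' => ?_) i
    · simpa [hΦ] using hv2.trans (le_abs_self C)
    · simpa [hΦ] using (hv1 i').trans (le_abs_self C)
  show ‖(fun j => (v j : ℝ)) - 0‖ ≤ _
  rw [sub_zero]
  exact h1.trans (mul_le_mul_of_nonneg_left h2 K.2)

/-- A finite set which is covered by successive supporting hyperplanes is not central. -/
theorem not_central {k : ℕ} (u : Fin k → Du (k + 1)) (a : Fin k → ℝ)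
    (hu : LinearIndependent ℝ u) (E : Finset (Fin (k + 1) → ℤ))
    (hE : ∀ x ∈ E, ∃ i, u i (pt x) = a i ∧ ∀ l < i, u l (pt x) < a l) :
    ¬ Central (E : Set (Fin (k + 1) → ℤ)) := by
  classical
  intro hcen
  -- the last functional
  obtain ⟨w, hw⟩ : ∃ w : Du (k + 1), w ∉ Submodule.span ℝ (Set.range u) := by
    apply exists_notMem
    rw [finrank_span_eq_card hu, Fintype.card_fin]
    exact Nat.lt_succ_self k
  have hli : LinearIndependent ℝ (Fin.cons w u : Fin (k + 1) → Du (k + 1)) :=
    linearIndependent_finCons.2 ⟨hu, hw⟩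
  -- a bound
  obtain ⟨B, hB1, hB2, hB3⟩ : ∃ B : ℝ, (∀ x ∈ E, ∀ l, |u l (pt x)| ≤ B) ∧ (∀ l, |a l| ≤ B) ∧
      (∀ x ∈ E, |w (pt x)| ≤ B) := by
    refine ⟨∑ x ∈ E, (∑ l, |u l (pt x)| + |w (pt x)|) + ∑ l, |a l|, ?_, ?_, ?_⟩
    · intro x hx l
      have h1 : |u l (pt x)| ≤ ∑ l, |u l (pt x)| :=
        single_le_sum (f := fun l => |u l (pt x)|) (fun _ _ => abs_nonneg _) (mem_univ l)
      have h2 : ∑ l, |u l (pt x)| + |w (pt x)| ≤ ∑ x ∈ E, (∑ l, |u l (pt x)| + |w (pt x)|) :=
        single_le_sum (f := fun x => ∑ l, |u l (pt x)| + |w (pt x)|)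
          (fun _ _ => add_nonneg (sum_nonneg fun _ _ => abs_nonneg _) (abs_nonneg _)) hx
      have h3 : 0 ≤ ∑ l, |a l| := sum_nonneg fun _ _ => abs_nonneg _
      have h4 := abs_nonneg (w (pt x))
      linarith
    · intro l
      have h1 : |a l| ≤ ∑ l, |a l| :=
        single_le_sum (f := fun l => |a l|) (fun _ _ => abs_nonneg _) (mem_univ l)
      have h2 : 0 ≤ ∑ x ∈ E, (∑ l, |u l (pt x)| + |w (pt x)|) :=
        sum_nonneg fun _ _ => add_nonneg (sum_nonneg fun _ _ => abs_nonneg _) (abs_nonneg _)
      linarith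
    · intro x hx
      have h2 : ∑ l, |u l (pt x)| + |w (pt x)| ≤ ∑ x ∈ E, (∑ l, |u l (pt x)| + |w (pt x)|) :=
        single_le_sum (f := fun x => ∑ l, |u l (pt x)| + |w (pt x)|)
          (fun _ _ => add_nonneg (sum_nonneg fun _ _ => abs_nonneg _) (abs_nonneg _)) hx
      have h3 : 0 ≤ ∑ l, |a l| := sum_nonneg fun _ _ => abs_nonneg _
      have h4 : 0 ≤ ∑ l, |u l (pt x)| := sum_nonneg fun _ _ => abs_nonneg _
      linarith
  set K : ℝ := 3 * B + 1 with hK
  -- the three positions of a lattice point with respect to an index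
  set pass : Fin k → (Fin (k + 1) → ℤ) → Prop := fun l v =>
    u l (pt v) < a l ∨ (u l (pt v) = a l ∧ w (pt v) < - B) with hpass
  set stop : Fin k → (Fin (k + 1) → ℤ) → Prop := fun l v =>
    a l < u l (pt v) ∨ (u l (pt v) = a l ∧ B < w (pt v)) with hstop
  have hcol : ∀ v : Fin (k + 1) → ℤ, ∃ (c : Option (Fin k)) (m : Bool),
      (m = false → (∀ l, (∀ i, c = some i → l < i) → pass l v) ∧ ∀ i, c = some i → stop i v) ∧
      (m = true → |w (pt v)| ≤ B ∧ (∀ i, c = some i → K < u i (pt v)) ∧
        (c = none → ∀ l, u l (pt v) ≤ K)) := by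
    intro v
    by_cases hall : ∀ l, pass l v
    · exact ⟨none, false, fun _ => ⟨fun l _ => hall l, fun i hi => absurd hi (by simp)⟩,
        fun h => absurd h (by simp)⟩
    · push Not at hall
      obtain ⟨j, hj, hjmin⟩ : ∃ j, ¬ pass j v ∧ ∀ l < j, pass l v := by
        obtain ⟨j0, hj0⟩ := hall
        set F := univ.filter fun l => ¬ pass l v with hF
        have hFne : F.Nonempty := ⟨j0, by simp [hF, hj0]⟩
        refine ⟨F.min' hFne, ?_, fun l hl => ?_⟩
        · have := F.min'_mem hFne
          exact (mem_filter.1 this).2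
        · by_contra hcon
          have := F.min'_le l (mem_filter.2 ⟨mem_univ l, hcon⟩)
          exact absurd hl (not_lt.2 this)
      by_cases hst : stop j v
      · refine ⟨some j, false, fun _ => ⟨fun l hl => hjmin l (hl j rfl), fun i hi => ?_⟩,
          fun h => absurd h (by simp)⟩
        have : j = i := Option.some.inj hi
        rw [← this]
        exact hst
      · have hwB : |w (pt v)| ≤ B := by
          simp only [hpass, hstop, not_or, not_and, not_lt] at hj hst
          have he : u j (pt v) = a j := le_antisymm hst.1 hj.1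
          exact abs_le.2 ⟨hj.2 he, hst.2 he⟩
        by_cases hi : ∃ i, K < u i (pt v)
        · obtain ⟨i, hi⟩ := hi
          refine ⟨some i, true, fun h => absurd h (by simp), fun _ => ⟨hwB, fun i' hi' => ?_,
            fun h => absurd h (by simp)⟩⟩
          have : i = i' := Option.some.inj hi'
          rw [← this]
          exact hi
        · push Not at hi
          exact ⟨none, true, fun h => absurd h (by simp), fun _ => ⟨hwB,
            fun i' hi' => absurd hi' (by simp), fun _ => hi⟩⟩
  choose c md hstd hslab using hcol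
  -- general consequences
  have hge : ∀ v i, c v = some i → a i ≤ u i (pt v) := by
    intro v i hi
    cases hm : md v with
    | false =>
      rcases (hstd v hm).2 i hi with h | h
      · exact h.le
      · exact h.1.ge
    | true =>
      have h1 := (hslab v hm).2.1 i hi
      have h2 := (abs_le.1 (hB2 i)).2
      have h3 := (abs_nonneg (a i)).trans (hB2 i)
      linarith
  have hno : ∀ v, c v = none → ∀ l, u l (pt v) ≤ K := by
    intro v hv l
    cases hm : md v with
    | false =>
      have h2 := (abs_le.1 (hB2 l)).2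
      have h3 := (abs_nonneg (a l)).trans (hB2 l)
      rcases (hstd v hm).1 l (fun i hi => absurd (hv.symm.trans hi) (by simp)) with h | h
      · linarith
      · linarith [h.1]
    | true => exact (hslab v hm).2.2 hv l
  have hcard : Fintype.card (Option (Fin k)) = k + 1 := by simp
  set e : Option (Fin k) ≃ Fin (k + 1) := Fintype.equivFinOfCardEq hcard with he
  obtain ⟨i0, A, x, hAinf, hAc, hxE, hsym⟩ := hcen (k + 1) le_rfl (fun v => e (c v))
  have hxE' : x ∈ E := hxE
  set C : ℝ := K + 2 * B with hC
  set Z : Set (Fin (k + 1) → ℤ) := {v | (∀ i, |u i (pt v)| ≤ C) ∧ |w (pt v)| ≤ C} with hZ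
  have hZfin : Z.Finite := finite_box u w hli C
  have hZ2 : ((fun v => 2 • x - v) ⁻¹' Z).Finite := by
    refine hZfin.preimage ?_
    intro v _ v' _ h
    simpa using h
  have hB0 : 0 ≤ B := (abs_nonneg _).trans (hB3 x hxE')
  -- a slab point of colour none is in the box
  have hbox : ∀ v, md v = true → c v = none → c (2 • x - v) = none → v ∈ Z := by
    intro v hm h1 h2
    refine ⟨fun i => ?_, ?_⟩
    · have h3 := hno v h1 i
      have h4 := hno _ h2 i
      have h5 := pt_add (u i) x v
      have h6 := abs_le.1 (hB1 x hxE' i)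
      rw [abs_le]
      constructor <;> linarith [h6.1, h6.2]
    · have := (hslab v hm).1
      linarith
  -- a slab point has no partner of the same colour `some i`
  have hslabi : ∀ v i, md v = true → c v = some i → c (2 • x - v) = some i → False := by
    intro v i hm h1 h2
    have h3 := (hslab v hm).2.1 i h1
    have h4 := hge _ i h2
    have h5 := pt_add (u i) x v
    have h6 := abs_le.1 (hB1 x hxE' i)
    have h7 := abs_le.1 (hB2 i)
    linarith [h6.2, h7.1]
  apply hAinf
  refine (hZfin.union hZ2).subset ?_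
  intro v hv
  have hv' : 2 • x - v ∈ A := by
    rw [hsym]
    exact ⟨v, hv, rfl⟩
  have hcc : c v = c (2 • x - v) := e.injective ((hAc v hv).trans (hAc _ hv').symm)
  have hvv : 2 • x - (2 • x - v) = v := by abel
  cases hm : md v with
  | true =>
    rcases hcv : c v with _ | i
    · left
      exact hbox v hm hcv (by rw [← hcc, hcv])
    · exact absurd (hslabi v i hm hcv (by rw [← hcc, hcv])) id
  | false =>
    cases hm' : md (2 • x - v) with
    | true =>
      rcases hcv : c v with _ | i
      · right
        exact hbox _ hm' (by rw [← hcc, hcv]) (by rw [hvv, hcv])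
      · exact absurd (hslabi _ i hm' (by rw [← hcc, hcv]) (by rw [hvv, hcv])) id
    | false =>
      exfalso
      obtain ⟨i, hi1, hi2⟩ := hE x hxE'
      obtain ⟨hs1, hs2⟩ := hstd v hm
      obtain ⟨hs1', hs2'⟩ := hstd _ hm'
      have hw1 := abs_le.1 (hB3 x hxE')
      -- if both points pass the index `i`
      have hboth : pass i v → pass i (2 • x - v) → False := by
        intro h1 h2
        have h3 := pt_add (u i) x v
        have h4 := pt_add w x v
        rcases h1 with h1 | h1 <;> rcases h2 with h2 | h2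
        · linarith
        · linarith [h2.1]
        · linarith [h1.1]
        · linarith [h1.2, h2.2]
      rcases hcv : c v with _ | j
      · exact hboth (hs1 i fun j hj => absurd (hcv.symm.trans hj) (by simp))
          (hs1' i fun j hj => absurd ((hcv.symm.trans hcc).trans hj) (by simp))
      · rcases lt_trichotomy i j with hij | hij | hij
        · refine hboth (hs1 i fun j' hj' => ?_) (hs1' i fun j' hj' => ?_)
          · have : j = j' := Option.some.inj (hcv.symm.trans hj')
            rwa [← this]
          · have : j = j' := Option.some.inj ((hcv.symm.trans hcc).trans hj')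
            rwa [← this]
        · subst hij
          have h1 := hs2 i hcv
          have h2 := hs2' i (by rw [← hcc, hcv])
          have h3 := pt_add (u i) x v
          have h4 := pt_add w x v
          rcases h1 with h1 | h1 <;> rcases h2 with h2 | h2
          · linarith
          · linarith [h2.1]
          · linarith [h1.1]
          · linarith [h1.2, h2.2]
        · have h1 := hge v j hcv
          have h2 := hge _ j (by rw [← hcc, hcv])
          have h3 := pt_add (u j) x v
          linarith [hi2 j hij]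

/-- Every finite central set of `ℤ^n`, `n ≥ 2`, has at least `n² - 2 n + 3` points. -/
theorem card_central {n : ℕ} (hn : 2 ≤ n) (E : Finset (Fin n → ℤ))
    (hE : Central (E : Set (Fin n → ℤ))) : n ^ 2 + 3 ≤ E.card + 2 * n := by
  classical
  obtain ⟨k, rfl⟩ : ∃ k, n = k + 2 := ⟨n - 2, by omega⟩
  by_contra hcon
  push Not at hcon
  have h1 : (E.image pt).card < k * (k + 1) + (k + 3) := by
    refine lt_of_le_of_lt card_image_le ?_
    have : (k + 2) ^ 2 = k * (k + 1) + 3 * k + 4 := by ring
    omega
  obtain ⟨u, a, hu, _, hcov⟩ := cov_lists (k + 1) _ _ (cov_small (E.image pt) h1)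
  exact not_central u a hu E (fun x hx => hcov _ (mem_image_of_mem pt hx)) hE

end Pool.Agent.H12D
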