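import Mathlib

/-!
Auxiliary facts for the sparsity theorem on central sets: Sylvester-Hadamard matrices, the fan
of a simplex, Vandermonde functionals.
-/

set_option autoImplicit false

namespace Pool.Agent.H12D

open Finset

/-- A matrix with entries bounded by one which multiplies the Euclidean norm by the square root
of the order. -/
def Had {ι : Type} [Fintype ι] (H : ι → ι → ℝ) : Prop :=
  (∀ i j, |H i j| ≤ 1) ∧
    ∀ x : ι → ℝ, ∑ i, (∑ j, H i j * x j) ^ 2 = (Fintype.card ι : ℝ) * ∑ j, x j ^ 2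

theorem had_sum {ι : Type} [Fintype ι] {H : ι → ι → ℝ} (h : Had H) :
    Had (fun a b : ι ⊕ ι => Sum.elim (fun i => Sum.elim (fun j => H i j) (fun j => H i j) b)
      (fun i => Sum.elim (fun j => H i j) (fun j => - H i j) b) a) := by
  refine ⟨?_, ?_⟩
  · rintro (i | i) (j | j)
    · simpa using h.1 i j
    · simpa using h.1 i j
    · simpa using h.1 i j
    · simpa using h.1 i j
  · intro x
    have h1 := h.2 (fun j => x (Sum.inl j) + x (Sum.inr j))
    have h2 := h.2 (fun j => x (Sum.inl j) - x (Sum.inr j))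
    rw [Fintype.sum_sum_type, Fintype.sum_sum_type]
    have e1 : ∀ i, ∑ b : ι ⊕ ι, (Sum.elim (fun i => Sum.elim (fun j => H i j)
        (fun j => H i j) b) (fun i => Sum.elim (fun j => H i j) (fun j => - H i j) b)
          (Sum.inl i : ι ⊕ ι)) * x b = ∑ j, H i j * (x (Sum.inl j) + x (Sum.inr j)) := by
      intro i
      rw [Fintype.sum_sum_type]
      simp only [Sum.elim_inl, Sum.elim_inr, mul_add, sum_add_distrib]
    have e2 : ∀ i, ∑ b : ι ⊕ ι, (Sum.elim (fun i => Sum.elim (fun j => H i j)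
        (fun j => H i j) b) (fun i => Sum.elim (fun j => H i j) (fun j => - H i j) b)
          (Sum.inr i : ι ⊕ ι)) * x b = ∑ j, H i j * (x (Sum.inl j) - x (Sum.inr j)) := by
      intro i
      rw [Fintype.sum_sum_type]
      simp only [Sum.elim_inl, Sum.elim_inr, mul_sub, sum_sub_distrib, neg_mul,
        Finset.sum_neg_distrib]
      ring
    simp only [e1, e2]
    rw [h1, h2, Fintype.card_sum]
    have e3 : ∑ j, (x (Sum.inl j) + x (Sum.inr j)) ^ 2 + ∑ j, (x (Sum.inl j) - x (Sum.inr j)) ^ 2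
        = 2 * (∑ j, x (Sum.inl j) ^ 2 + ∑ j, x (Sum.inr j) ^ 2) := by
      rw [← sum_add_distrib, ← sum_add_distrib, mul_sum]
      exact sum_congr rfl fun j _ => by ring
    push_cast
    linear_combination (Fintype.card ι : ℝ) * e3

theorem had_equiv {ι κ : Type} [Fintype ι] [Fintype κ] (e : κ ≃ ι) {H : ι → ι → ℝ} (h : Had H) :
    Had (fun a b : κ => H (e a) (e b)) := by
  refine ⟨fun i j => h.1 _ _, fun x => ?_⟩
  have h1 := h.2 (fun j => x (e.symm j))
  rw [Fintype.card_congr e]
  rw [← Equiv.sum_comp e (fun j => (x (e.symm j)) ^ 2)] at h1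
  rw [← Equiv.sum_comp e] at h1
  simp only [Equiv.symm_apply_apply] at h1
  rw [← h1]
  refine sum_congr rfl fun i _ => ?_
  congr 1
  rw [← Equiv.sum_comp e]
  simp only [Equiv.symm_apply_apply]

theorem exists_had (k : ℕ) : ∃ H : Fin (2 ^ k) → Fin (2 ^ k) → ℝ, Had H := by
  induction k with
  | zero =>
    refine ⟨fun _ _ => 1, fun _ _ => by simp, fun x => ?_⟩
    have : Fintype.card (Fin (2 ^ 0)) = 1 := by simp
    rw [this]
    simp only [Nat.cast_one, one_mul]
    have : Unique (Fin (2 ^ 0)) := inferInstanceAs (Unique (Fin 1))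
    simp
  | succ k ih =>
    obtain ⟨H, hH⟩ := ih
    have e : Fin (2 ^ (k + 1)) ≃ Fin (2 ^ k) ⊕ Fin (2 ^ k) :=
      (finCongr (by rw [pow_succ]; ring)).trans finSumFinEquiv.symm
    exact ⟨_, had_equiv e (had_sum hH)⟩

/-- The values of the facets of the simplex fan on a vector. -/
def fan {ι : Type} [Fintype ι] (g : ι → ℝ) : Option ι → ℝ
  | some i => g i
  | none => - ∑ i, g i

theorem fan_add {ι : Type} [Fintype ι] (g g' : ι → ℝ) (o : Option ι) :
    fan (g + g') o = fan g o + fan g' o := by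
  cases o with
  | none => simp [fan, sum_add_distrib]; ring
  | some i => simp [fan]

theorem exists_fan {ι : Type} [Fintype ι] (g : ι → ℝ) :
    ∃ o : Option ι, ‖g‖ ≤ (Fintype.card ι + 1) * fan g o := by
  classical
  by_cases h0 : ∃ o : Option ι, 0 < fan g o ∧ ‖g‖ ≤ (Fintype.card ι + 1) * fan g o
  · obtain ⟨o, _, h⟩ := h0
    exact ⟨o, h⟩
  push Not at h0
  -- then every fan value is at most `‖g‖ / (d + 1)` and the norm vanishes
  have hd : (0 : ℝ) < Fintype.card ι + 1 := by positivity
  have hle : ∀ o, fan g o ≤ ‖g‖ / (Fintype.card ι + 1) := by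
    intro o
    by_cases h : 0 < fan g o
    · have := h0 o h
      rw [le_div_iff₀ hd]
      linarith
    · push Not at h
      exact h.trans (by positivity)
  have hnone := hle none
  have hneg : ∀ i, |g i| ≤ ‖g‖ * (Fintype.card ι / (Fintype.card ι + 1)) := by
    intro i
    have h1 : g i ≤ ‖g‖ / (Fintype.card ι + 1) := hle (some i)
    have hc : (1 : ℝ) ≤ Fintype.card ι := by
      have : 0 < Fintype.card ι := Fintype.card_pos_iff.2 ⟨i⟩
      exact_mod_cast this
    have h2 : - g i ≤ ‖g‖ * (Fintype.card ι / (Fintype.card ι + 1)) := by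
      have h3 : - ∑ j, g j ≤ ‖g‖ / (Fintype.card ι + 1) := hnone
      rw [← Finset.add_sum_erase univ g (mem_univ i)] at h3
      have h4 : ∑ j ∈ univ.erase i, g j ≤ ∑ j ∈ univ.erase i, ‖g‖ / (Fintype.card ι + 1) :=
        sum_le_sum fun j _ => hle (some j)
      rw [sum_const, card_erase_of_mem (mem_univ i), card_univ, nsmul_eq_mul,
        Nat.cast_sub (by exact_mod_cast hc)] at h4
      push_cast at h4
      have h5 : ‖g‖ / (Fintype.card ι + 1) + ((Fintype.card ι : ℝ) - 1) *
          (‖g‖ / (Fintype.card ι + 1)) = ‖g‖ * (Fintype.card ι / (Fintype.card ι + 1)) := by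
        ring
      linarith
    rw [abs_le]
    constructor
    · linarith
    · refine h1.trans ?_
      rw [div_eq_mul_one_div]
      gcongr
  have hn : ‖g‖ ≤ ‖g‖ * (Fintype.card ι / (Fintype.card ι + 1)) := by
    conv_lhs => rw [show ‖g‖ = ‖g‖ from rfl]
    refine (pi_norm_le_iff_of_nonneg (by positivity)).2 fun i => ?_
    rw [Real.norm_eq_abs]
    exact hneg i
  have hz : ‖g‖ = 0 := by
    have h1 : ‖g‖ * (1 / (Fintype.card ι + 1)) ≤ 0 := by
      have : (Fintype.card ι : ℝ) / (Fintype.card ι + 1) = 1 - 1 / (Fintype.card ι + 1) := by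
        field_simp
        ring
      rw [this] at hn
      nlinarith
    have h2 : 0 < (1 : ℝ) / (Fintype.card ι + 1) := by positivity
    have h3 := norm_nonneg g
    nlinarith
  have hg : g = 0 := norm_eq_zero.1 hz
  exact ⟨none, by simp [hg, fan]⟩

/-- Vandermonde functionals are injective on sparse vectors. -/
theorem vander_inj {m r : ℕ} (y : Fin m → ℝ) (hs : (univ.filter fun i => y i ≠ 0).card ≤ r)
    (h : ∀ l < r, ∑ i : Fin m, ((i : ℕ) : ℝ) ^ l * y i = 0) : y = 0 := by
  classical
  by_contra hne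
  obtain ⟨j, hj⟩ : ∃ j, y j ≠ 0 := by
    by_contra hcon
    push Not at hcon
    exact hne (funext hcon)
  set S := univ.filter fun i => y i ≠ 0 with hS
  have hjS : j ∈ S := by simp [hS, hj]
  set p : Polynomial ℝ := ∏ i ∈ S.erase j, (Polynomial.X - Polynomial.C ((i : ℕ) : ℝ)) with hp
  have hdeg : p.natDegree < r := by
    rw [hp, Polynomial.natDegree_prod_of_monic _ _ fun i _ => Polynomial.monic_X_sub_C _]
    simp only [Polynomial.natDegree_X_sub_C, sum_const, smul_eq_mul, mul_one]
    rw [card_erase_of_mem hjS]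
    have : 0 < S.card := card_pos.2 ⟨j, hjS⟩
    omega
  have h1 : ∑ i : Fin m, p.eval ((i : ℕ) : ℝ) * y i = 0 := by
    have : ∀ i : Fin m, p.eval ((i : ℕ) : ℝ) * y i
        = ∑ l ∈ range r, p.coeff l * (((i : ℕ) : ℝ) ^ l * y i) := by
      intro i
      rw [Polynomial.eval_eq_sum_range' hdeg, sum_mul]
      exact sum_congr rfl fun l _ => by ring
    simp only [this]
    rw [sum_comm]
    refine sum_eq_zero fun l hl => ?_
    rw [← mul_sum, h l (mem_range.1 hl), mul_zero]
  have h2 : ∑ i : Fin m, p.eval ((i : ℕ) : ℝ) * y i = p.eval ((j : ℕ) : ℝ) * y j := by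
    refine sum_eq_single j (fun i _ hij => ?_) (fun hcon => absurd (mem_univ j) hcon)
    by_cases hi : y i = 0
    · rw [hi, mul_zero]
    · have hi' : i ∈ S.erase j := mem_erase.2 ⟨hij, by simp [hS, hi]⟩
      rw [hp, Polynomial.eval_prod, prod_eq_zero hi' (by simp), zero_mul]
  rw [h1] at h2
  have h3 : p.eval ((j : ℕ) : ℝ) ≠ 0 := by
    rw [hp, Polynomial.eval_prod, prod_ne_zero_iff]
    intro i hi
    simp only [Polynomial.eval_sub, Polynomial.eval_X, Polynomial.eval_C]
    rw [sub_ne_zero]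
    intro hcon
    have : j = i := Fin.ext (by exact_mod_cast hcon)
    exact (mem_erase.1 hi).1 this.symm
  exact (mul_ne_zero h3 hj) h2.symm

end Pool.Agent.H12D
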