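import Mathlib

/-!
Peeling a finite set of points of `ℝ^n` by supporting hyperplanes with independent normals.
-/

set_option autoImplicit false

namespace Pool.Agent.H12D

open Finset

/-- The linear functionals of `ℝ^n`. -/
abbrev Du (n : ℕ) : Type := Module.Dual ℝ (Fin n → ℝ)

/-- The functionals which are constant on `Y`. -/
def cst {n : ℕ} (Y : Finset (Fin n → ℝ)) : Submodule ℝ (Du n) where
  carrier := {w | ∀ y ∈ Y, ∀ y' ∈ Y, w y = w y'}
  add_mem' := by
    intro a b ha hb y hy y' hy'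
    simp only [LinearMap.add_apply]
    rw [ha y hy y' hy', hb y hy y' hy']
  zero_mem' := by
    intro y _ y' _
    simp
  smul_mem' := by
    intro c a ha y hy y' hy'
    simp only [LinearMap.smul_apply]
    rw [ha y hy y' hy']

theorem mem_cst {n : ℕ} {Y : Finset (Fin n → ℝ)} {w : Du n} :
    w ∈ cst Y ↔ ∀ y ∈ Y, ∀ y' ∈ Y, w y = w y' := Iff.rfl

theorem cst_mono {n : ℕ} {Y Y' : Finset (Fin n → ℝ)} (h : Y' ⊆ Y) : cst Y ≤ cst Y' :=
  fun _ hw y hy y' hy' => hw y (h hy) y' (h hy')

theorem span_le_one {n : ℕ} (u : Du n) : Module.finrank ℝ (Submodule.span ℝ {u}) ≤ 1 := by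
  have h := finrank_span_le_card (R := ℝ) ({u} : Set (Du n))
  simpa using h

theorem rank_cst {n : ℕ} (D : Submodule ℝ (Du n)) (Y : Finset (Fin n → ℝ)) (hY : Y.Nonempty) :
    Module.finrank ℝ D + 1 ≤ Module.finrank ℝ (D ⊓ cst Y : Submodule ℝ (Du n)) + Y.card := by
  classical
  obtain ⟨y0, hy0⟩ := hY
  let L : D →ₗ[ℝ] ({y // y ∈ Y.erase y0} → ℝ) :=
    LinearMap.pi fun y => (Module.Dual.eval ℝ (Fin n → ℝ) (y.1 - y0)).comp D.subtype
  have h1 := LinearMap.finrank_range_add_finrank_ker (K := ℝ) (V := D) L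
  have h2 : Module.finrank ℝ (LinearMap.range L) ≤ Y.card - 1 := by
    refine (Submodule.finrank_le _).trans ?_
    rw [Module.finrank_fintype_fun_eq_card, Fintype.card_coe, card_erase_of_mem hy0]
  have h3 : Module.finrank ℝ (LinearMap.ker L)
      ≤ Module.finrank ℝ (D ⊓ cst Y : Submodule ℝ (Du n)) := by
    rw [← Submodule.finrank_map_subtype_eq]
    refine Submodule.finrank_mono ?_
    rintro w ⟨⟨w', hw'D⟩, hw', rfl⟩
    refine ⟨hw'D, ?_⟩
    have h4 : ∀ y ∈ Y, w' y = w' y0 := by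
      intro y hy
      by_cases hyy : y = y0
      · rw [hyy]
      · have := congrFun (LinearMap.mem_ker.1 hw') ⟨y, mem_erase.2 ⟨hyy, hy⟩⟩
        simp only [L, LinearMap.pi_apply, LinearMap.comp_apply, Submodule.subtype_apply,
          map_sub, LinearMap.sub_apply, Module.Dual.eval_apply, Pi.zero_apply] at this
        linarith
    intro y hy y' hy'
    simp only [Submodule.subtype_apply]
    rw [h4 y hy, h4 y' hy']
  have h5 : 0 < Y.card := card_pos.2 ⟨y0, hy0⟩
  omega

open Classical in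
/-- The points of `Y` where `u` is maximal. -/
noncomputable def face {n : ℕ} (Y : Finset (Fin n → ℝ)) (u : Du n) : Finset (Fin n → ℝ) :=
  Y.filter fun y => ∀ y' ∈ Y, u y' ≤ u y

theorem mem_face {n : ℕ} {Y : Finset (Fin n → ℝ)} {u : Du n} {y : Fin n → ℝ} :
    y ∈ face Y u ↔ y ∈ Y ∧ ∀ y' ∈ Y, u y' ≤ u y := by
  unfold face
  rw [mem_filter]

theorem face_nonempty {n : ℕ} {Y : Finset (Fin n → ℝ)} (hY : Y.Nonempty) (u : Du n) :
    (face Y u).Nonempty := by
  obtain ⟨y, hy, h⟩ := exists_max_image Y u hY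
  exact ⟨y, mem_face.2 ⟨hy, h⟩⟩

/-- Tilting a functional: the face grows. -/
theorem tilt {n : ℕ} (Y : Finset (Fin n → ℝ)) (hY : Y.Nonempty) (u w : Du n)
    (hw : w ∈ cst (face Y u)) (hw' : w ∉ cst Y) :
    ∃ t : ℝ, (face Y u).card < (face Y (u + t • w)).card := by
  classical
  obtain ⟨r, hr⟩ := face_nonempty hY u
  obtain ⟨hrY, hrmax⟩ := mem_face.1 hr
  -- a positive version
  have key : ∀ w : Du n, w ∈ cst (face Y u) → (∃ y ∈ Y, w r < w y) →
      ∃ t : ℝ, (face Y u).card < (face Y (u + t • w)).card := by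
    intro w hw hex
    set Z := Y.filter fun y => w r < w y with hZ
    have hZne : Z.Nonempty := by
      obtain ⟨y, hy, h⟩ := hex
      exact ⟨y, mem_filter.2 ⟨hy, h⟩⟩
    obtain ⟨z, hz, hzmin⟩ := exists_min_image Z (fun y => (u r - u y) / (w y - w r)) hZne
    obtain ⟨hzY, hzw⟩ := mem_filter.1 hz
    set t := (u r - u z) / (w z - w r) with ht
    have htnn : 0 ≤ t := div_nonneg (by linarith [hrmax z hzY]) (by linarith)
    have hle : ∀ y ∈ Y, (u + t • w) y ≤ (u + t • w) r := by
      intro y hy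
      simp only [LinearMap.add_apply, LinearMap.smul_apply, smul_eq_mul]
      by_cases hyw : w r < w y
      · have h1 := hzmin y (mem_filter.2 ⟨hy, hyw⟩)
        rw [le_div_iff₀ (by linarith)] at h1
        nlinarith
      · push Not at hyw
        have := hrmax y hy
        nlinarith
    have hzeq : (u + t • w) z = (u + t • w) r := by
      simp only [LinearMap.add_apply, LinearMap.smul_apply, smul_eq_mul]
      have h1 : t * (w z - w r) = u r - u z := by
        rw [ht]
        exact div_mul_cancel₀ _ (by linarith)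
      linarith
    refine ⟨t, card_lt_card ?_⟩
    rw [ssubset_iff_of_subset]
    · refine ⟨z, mem_face.2 ⟨hzY, fun y hy => ?_⟩, fun hzf => ?_⟩
      · rw [hzeq]
        exact hle y hy
      · have := hw z hzf r hr
        linarith
    · intro y hy
      refine mem_face.2 ⟨(mem_face.1 hy).1, fun y' hy' => ?_⟩
      have h1 : u y = u r := le_antisymm (hrmax y (mem_face.1 hy).1) ((mem_face.1 hy).2 r hrY)
      have h2 : w y = w r := hw y hy r hr
      have h3 : (u + t • w) y = (u + t • w) r := by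
        simp only [LinearMap.add_apply, LinearMap.smul_apply, smul_eq_mul]
        rw [h1, h2]
      rw [h3]
      exact hle y' hy'
  have hne : ∃ y ∈ Y, w y ≠ w r := by
    by_contra hcon
    push Not at hcon
    exact hw' fun y hy y' hy' => by rw [hcon y hy, hcon y' hy']
  obtain ⟨y, hy, hyr⟩ := hne
  rcases lt_or_gt_of_ne hyr with h | h
  · obtain ⟨t, ht⟩ := key (-w) ((cst _).neg_mem hw) ⟨y, hy, by
      simp only [LinearMap.neg_apply]
      linarith⟩
    refine ⟨-t, ?_⟩
    have : u + (-t) • w = u + t • (-w) := by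
      ext y
      simp
    rw [this]
    exact ht
  · exact key w hw ⟨y, hy, h⟩

/-- A functional of `D` outside `S` with many maximal points. -/
theorem exists_face {n : ℕ} (D S : Submodule ℝ (Du n)) (hS : S ≤ D)
    (hr : Module.finrank ℝ S < Module.finrank ℝ D) (Y : Finset (Fin n → ℝ)) (hY : Y.Nonempty)
    (hD : ∀ w ∈ D, w ∈ cst Y → w = 0) :
    ∃ u ∈ D, u ∉ S ∧ Module.finrank ℝ D ≤ (face Y u).card := by
  classical
  set T : Set ℕ := {k | ∃ u ∈ D, u ∉ S ∧ (face Y u).card = k} with hT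
  have hTne : T.Nonempty := by
    obtain ⟨u, hu, hu'⟩ : ∃ u ∈ D, u ∉ S := by
      by_contra hcon
      push Not at hcon
      exact absurd (Submodule.finrank_mono (show D ≤ S from hcon)) (by omega)
    exact ⟨_, u, hu, hu', rfl⟩
  have hTb : BddAbove T := by
    refine ⟨Y.card, ?_⟩
    rintro k ⟨u, _, _, rfl⟩
    exact card_le_card fun y hy => (mem_face.1 hy).1
  obtain ⟨u, huD, huS, huk⟩ := Nat.sSup_mem hTne hTb
  refine ⟨u, huD, huS, ?_⟩
  by_contra hcon
  push Not at hcon
  -- a direction which stays outside `S`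
  obtain ⟨w, hwD, hwc, hw0, hwS⟩ : ∃ w ∈ D, w ∈ cst (face Y u) ∧ w ≠ 0 ∧
      ∀ t : ℝ, u + t • w ∉ S := by
    by_cases hA : ∃ w ∈ S, w ∈ cst (face Y u) ∧ w ≠ 0
    · obtain ⟨w, hwS, hwc, hw0⟩ := hA
      refine ⟨w, hS hwS, hwc, hw0, fun t ht => huS ?_⟩
      have := S.sub_mem ht (S.smul_mem t hwS)
      simpa using this
    · push Not at hA
      have huc : u ∈ cst (face Y u) := by
        intro y hy y' hy'
        exact le_antisymm ((mem_face.1 hy').2 y (mem_face.1 hy).1)
          ((mem_face.1 hy).2 y' (mem_face.1 hy').1)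
      have hrk := rank_cst D (face Y u) (face_nonempty hY u)
      have hrk2 : 2 ≤ Module.finrank ℝ (D ⊓ cst (face Y u) : Submodule ℝ (Du n)) := by omega
      obtain ⟨w, hw, hwu⟩ : ∃ w ∈ (D ⊓ cst (face Y u) : Submodule ℝ (Du n)),
          w ∉ Submodule.span ℝ {u} := by
        by_contra hcon2
        push Not at hcon2
        have h1 := Submodule.finrank_mono (show D ⊓ cst (face Y u) ≤ Submodule.span ℝ {u}
          from hcon2)
        have h2 := span_le_one u
        omega
      refine ⟨w, hw.1, hw.2, fun h0 => hwu (by rw [h0]; exact Submodule.zero_mem _),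
        fun t ht => ?_⟩
      have h1 : u + t • w = 0 :=
        hA _ ht ((cst _).add_mem huc ((cst _).smul_mem t hw.2))
      by_cases ht0 : t = 0
      · rw [ht0, zero_smul, add_zero] at h1
        exact huS (by rw [h1]; exact S.zero_mem)
      · apply hwu
        rw [Submodule.mem_span_singleton]
        refine ⟨-t⁻¹, ?_⟩
        have h2 : u = - (t • w) := eq_neg_of_add_eq_zero_left h1
        rw [h2, neg_smul, smul_neg, neg_neg, smul_smul, inv_mul_cancel₀ ht0, one_smul]
  have hwY : w ∉ cst Y := fun h => hw0 (hD w hwD h)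
  obtain ⟨t, ht⟩ := tilt Y hY u w hwc hwY
  have hmem : (face Y (u + t • w)).card ∈ T :=
    ⟨u + t • w, D.add_mem huD (D.smul_mem t hwD), hwS t, rfl⟩
  have := le_csSup hTb hmem
  omega

/-- `Y` is covered by `k` successive supporting hyperplanes with independent normals modulo `S`. -/
def Cov {n : ℕ} : ℕ → Submodule ℝ (Du n) → Finset (Fin n → ℝ) → Prop
  | 0, _, Y => Y = ∅
  | k + 1, S, Y => ∃ (u : Du n) (a : ℝ), u ∉ S ∧ (∀ y ∈ Y, u y ≤ a) ∧
      ∃ Y' : Finset (Fin n → ℝ), (∀ y ∈ Y, u y < a → y ∈ Y') ∧ Cov k (S ⊔ Submodule.span ℝ {u}) Y'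

theorem exists_notMem {n : ℕ} (S : Submodule ℝ (Du n)) (h : Module.finrank ℝ S < n) :
    ∃ u : Du n, u ∉ S := by
  by_contra hcon
  push Not at hcon
  have h1 : S = ⊤ := Submodule.eq_top_iff'.2 hcon
  rw [h1, finrank_top, Subspace.dual_finrank_eq, Module.finrank_fin_fun] at h
  exact lt_irrefl _ h

theorem finrank_sup_span {n : ℕ} (S : Submodule ℝ (Du n)) (u : Du n) :
    Module.finrank ℝ (S ⊔ Submodule.span ℝ {u} : Submodule ℝ (Du n))
      ≤ Module.finrank ℝ S + 1 := by
  have h1 := Submodule.finrank_add_le_finrank_add_finrank S (Submodule.span ℝ {u})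
  have h2 := span_le_one u
  omega

theorem cov_empty {n : ℕ} (k : ℕ) : ∀ S : Submodule ℝ (Du n), Module.finrank ℝ S + k ≤ n →
    Cov k S ∅ := by
  induction k with
  | zero => intro S _; rfl
  | succ k ih =>
    intro S hS
    obtain ⟨u, hu⟩ := exists_notMem S (by omega)
    refine ⟨u, 0, hu, by simp, ∅, by simp, ih _ ?_⟩
    have := finrank_sup_span S u
    omega

/-- Sets which are not full dimensional. -/
theorem cov_flat {n : ℕ} (k : ℕ) (S : Submodule ℝ (Du n)) (hS : Module.finrank ℝ S + (k + 1) ≤ n)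
    (Y : Finset (Fin n → ℝ)) (ν : Du n) (hν : ν ∈ cst Y) (hνS : ν ∉ S) : Cov (k + 1) S Y := by
  by_cases hY : Y.Nonempty
  · obtain ⟨y0, hy0⟩ := hY
    refine ⟨ν, ν y0, hνS, fun y hy => (hν y hy y0 hy0).le, ∅, fun y hy h => ?_, ?_⟩
    · exact absurd (hν y hy y0 hy0) (ne_of_lt h)
    · refine cov_empty k _ ?_
      have := finrank_sup_span S ν
      omega
  · rw [not_nonempty_iff_eq_empty.1 hY]
    exact cov_empty _ _ hS

/-- The direction `d` is generic for `X`. -/
def Gen {n : ℕ} (X : Finset (Fin n → ℝ)) (d : Fin n → ℝ) : Prop :=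
  ∀ Y ⊆ X, (∃ w ∈ cst Y, w ≠ 0) → ∃ w ∈ cst Y, w d ≠ 0

theorem exists_gen {n : ℕ} (X : Finset (Fin n → ℝ)) : ∃ d, Gen X d := by
  classical
  by_contra hcon
  push Not at hcon
  have h1 : ∀ Y : Finset (Fin n → ℝ), ∃ w : Du n, (∃ w ∈ cst Y, w ≠ 0) → w ∈ cst Y ∧ w ≠ 0 := by
    intro Y
    by_cases h : ∃ w ∈ cst Y, w ≠ 0
    · obtain ⟨w, hw, hw0⟩ := h
      exact ⟨w, fun _ => ⟨hw, hw0⟩⟩
    · exact ⟨0, fun h' => absurd h' h⟩
  choose W hW using h1
  have h2 : ⋃ Y : {Y : Finset (Fin n → ℝ) // Y ∈ X.powerset ∧ W Y ≠ 0},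
      ((LinearMap.ker (W Y.1) : Submodule ℝ (Fin n → ℝ)) : Set (Fin n → ℝ)) = Set.univ := by
    rw [Set.eq_univ_iff_forall]
    intro d
    have h3 := hcon d
    unfold Gen at h3
    push Not at h3
    obtain ⟨Y, hYX, hY, hYd⟩ := h3
    have h4 := hW Y hY
    rw [Set.mem_iUnion]
    exact ⟨⟨Y, mem_powerset.2 hYX, h4.2⟩, hYd _ h4.1⟩
  have hfin : Finite {Y : Finset (Fin n → ℝ) // Y ∈ X.powerset ∧ W Y ≠ 0} := by
    have : Finite {Y : Finset (Fin n → ℝ) // Y ∈ X.powerset} := inferInstance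
    exact Finite.of_injective
      (fun Y : {Y : Finset (Fin n → ℝ) // Y ∈ X.powerset ∧ W Y ≠ 0} =>
        (⟨Y.1, Y.2.1⟩ : {Y : Finset (Fin n → ℝ) // Y ∈ X.powerset}))
      (fun a b h => Subtype.ext (Subtype.mk.inj h))
  obtain ⟨Y, hY⟩ := Subspace.exists_eq_top_of_iUnion_eq_univ h2
  exact Y.2.2 (LinearMap.ker_eq_top.1 hY)

/-- Small sets can be covered. -/
theorem cov_main {n : ℕ} (d : Fin n → ℝ) (k : ℕ) :
    ∀ (S : Submodule ℝ (Du n)) (Y : Finset (Fin n → ℝ)), (∀ u ∈ S, u d = 0) →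
      Module.finrank ℝ S + k + 2 ≤ n → Gen Y d → Y.card < k * (n - 1) + (n + 1) →
      Cov (k + 1) S Y := by
  classical
  induction k with
  | zero =>
    intro S Y hS hk hG hc
    by_cases hY : Y.Nonempty
    · have h1 := rank_cst (⊤ : Submodule ℝ (Du n)) Y hY
      rw [top_inf_eq, finrank_top, Subspace.dual_finrank_eq, Module.finrank_fin_fun] at h1
      have h2 : 0 < Module.finrank ℝ (cst Y) := by omega
      obtain ⟨⟨w, hw⟩, hw0⟩ := (Module.finrank_pos_iff_exists_ne_zero (R := ℝ) (M := cst Y)).1 h2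
      obtain ⟨ν, hν, hνd⟩ := hG Y subset_rfl ⟨w, hw, fun h => hw0 (Subtype.ext h)⟩
      exact cov_flat 0 S (by omega) Y ν hν fun h => hνd (hS ν h)
    · rw [not_nonempty_iff_eq_empty.1 hY]
      exact cov_empty _ _ (by omega)
  | succ k ih =>
    intro S Y hS hk hG hc
    by_cases hfull : ∃ w ∈ cst Y, w ≠ 0
    · obtain ⟨ν, hν, hνd⟩ := hG Y subset_rfl hfull
      exact cov_flat (k + 1) S (by omega) Y ν hν fun h => hνd (hS ν h)
    · push Not at hfull
      set D : Submodule ℝ (Du n) := LinearMap.ker (Module.Dual.eval ℝ (Fin n → ℝ) d) with hD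
      have hmemD : ∀ u, u ∈ D ↔ u d = 0 := fun u => Iff.rfl
      have hDr : n - 1 ≤ Module.finrank ℝ D := by
        have h1 : Module.finrank ℝ (LinearMap.range (Module.Dual.eval ℝ (Fin n → ℝ) d))
            + Module.finrank ℝ D = Module.finrank ℝ (Du n) :=
          LinearMap.finrank_range_add_finrank_ker (Module.Dual.eval ℝ (Fin n → ℝ) d)
        rw [Subspace.dual_finrank_eq, Module.finrank_fin_fun] at h1
        have h2 : Module.finrank ℝ (LinearMap.range (Module.Dual.eval ℝ (Fin n → ℝ) d)) ≤ 1 := by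
          refine (Submodule.finrank_le _).trans ?_
          rw [Module.finrank_self]
        omega
      have hY : Y.Nonempty := by
        by_contra hY
        rw [not_nonempty_iff_eq_empty] at hY
        obtain ⟨u, hu⟩ := exists_notMem (⊥ : Submodule ℝ (Du n)) (by
          rw [finrank_bot]
          omega)
        apply hu
        rw [Submodule.mem_bot]
        apply hfull
        rw [hY]
        intro y hy
        simp at hy
      obtain ⟨u, huD, huS, hu⟩ := exists_face D S (fun u hu => hS u hu) (by omega) Y hY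
        (fun w _ hw => hfull w hw)
      obtain ⟨r, hr⟩ := face_nonempty hY u
      refine ⟨u, u r, huS, fun y hy => (mem_face.1 hr).2 y hy, Y \ face Y u, ?_, ?_⟩
      · intro y hy hlt
        refine mem_sdiff.2 ⟨hy, fun hyf => ?_⟩
        have := (mem_face.1 hyf).2 r (mem_face.1 hr).1
        linarith
      · refine ih _ _ ?_ ?_ ?_ ?_
        · intro w hw
          obtain ⟨s, hs, v, hv, rfl⟩ := Submodule.mem_sup.1 hw
          obtain ⟨c, rfl⟩ := Submodule.mem_span_singleton.1 hv
          have h1 : u d = 0 := huD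
          simp [hS s hs, h1]
        · have := finrank_sup_span S u
          omega
        · exact fun Y' hY' => hG Y' (hY'.trans sdiff_subset)
        · have h1 : face Y u ⊆ Y := fun y hy => (mem_face.1 hy).1
          rw [card_sdiff_of_subset h1]
          have h2 := card_le_card h1
          have h3 : (k + 1) * (n - 1) = k * (n - 1) + (n - 1) := by ring
          omega

/-- A set with fewer than `n² - 2 n + 3` points is covered by `n - 1` successive supporting
hyperplanes. -/
theorem cov_small {k : ℕ} (X : Finset (Fin (k + 2) → ℝ)) (hX : X.card < k * (k + 1) + (k + 3)) :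
    Cov (k + 1) (⊥ : Submodule ℝ (Du (k + 2))) X := by
  obtain ⟨d, hd⟩ := exists_gen X
  refine cov_main d k ⊥ X ?_ ?_ ?_ ?_
  · intro u hu
    rw [(Submodule.mem_bot ℝ).1 hu]
    simp
  · rw [finrank_bot]
    omega
  · exact hd
  · simpa using hX

end Pool.Agent.H12D
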