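import Pool.Agent.Lib.H12D.Had
import Pool.Agent.Lib.H61C.Defs

/-!
The sparsity theorem for central sets: the colouring.
-/

set_option autoImplicit false

namespace Pool.Agent.H12D

open Finset
open Pool.Agent.H61C

/-- A chosen element with the property `P`. -/
noncomputable def pick {α : Type} (P : α → Prop) (h : ∃ i, P i) : α := Classical.choose h

theorem pick_spec {α : Type} (P : α → Prop) (h : ∃ i, P i) : P (pick P h) :=
  Classical.choose_spec h

theorem pick_congr {α : Type} {P P' : α → Prop} (e : P = P') (h : ∃ i, P i) (h' : ∃ i, P' i) :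
    pick P h = pick P' h' := by
  subst e
  rfl

open Classical in
/-- The sign of a chosen nonzero entry in the block `b`. -/
noncomputable def bs {m : ℕ} {κ : Type} (β : Fin m → κ) (y : Fin m → ℝ) (b : κ) : ℝ :=
  if h : ∃ i, β i = b ∧ y i ≠ 0 then Real.sign (y (pick _ h)) else 0

theorem bs_neg {m : ℕ} {κ : Type} (β : Fin m → κ) (y y' : Fin m → ℝ) (b : κ)
    (h : ∀ i, β i = b → y' i = - y i) : bs β y' b = - bs β y b := by
  have e : (fun i => β i = b ∧ y' i ≠ 0) = (fun i => β i = b ∧ y i ≠ 0) := by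
    funext i
    apply propext
    constructor
    · rintro ⟨h1, h2⟩
      rw [h i h1] at h2
      exact ⟨h1, fun hc => h2 (by rw [hc, neg_zero])⟩
    · rintro ⟨h1, h2⟩
      refine ⟨h1, ?_⟩
      rw [h i h1]
      exact neg_ne_zero.2 h2
  unfold bs
  by_cases h0 : ∃ i, β i = b ∧ y i ≠ 0
  · have h0' : ∃ i, β i = b ∧ y' i ≠ 0 := by
      obtain ⟨i, hi⟩ := h0
      exact ⟨i, (congrFun e i).mpr hi⟩
    rw [dif_pos h0, dif_pos h0']
    have e1 : pick (fun i => β i = b ∧ y' i ≠ 0) h0' = pick (fun i => β i = b ∧ y i ≠ 0) h0 :=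
      pick_congr e _ _
    rw [e1]
    have h1 := pick_spec (fun i => β i = b ∧ y i ≠ 0) h0
    rw [h _ h1.1, Real.sign_neg]
  · have h0' : ¬ ∃ i, β i = b ∧ y' i ≠ 0 := by
      rintro ⟨i, hi⟩
      exact h0 ⟨i, (congrFun e i).mp hi⟩
    rw [dif_neg h0, dif_neg h0', neg_zero]

theorem bs_sq {m : ℕ} {κ : Type} (β : Fin m → κ) (y : Fin m → ℝ) (b : κ)
    (h : ∃ i, β i = b ∧ y i ≠ 0) : bs β y b ^ 2 = 1 := by
  unfold bs
  rw [dif_pos h]
  rcases Real.sign_apply_eq_of_ne_zero _ (pick_spec _ h).2 with h1 | h1 <;> rw [h1] <;> norm_num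

theorem bs_abs {m : ℕ} {κ : Type} (β : Fin m → κ) (y : Fin m → ℝ) (b : κ) :
    |bs β y b| ≤ 1 := by
  by_cases h : ∃ i, β i = b ∧ y i ≠ 0
  · exact (abs_le_one_iff_mul_self_le_one).2 (by nlinarith [bs_sq β y b h])
  · unfold bs
    rw [dif_neg h]
    simp

/-- The transformed block signs. -/
noncomputable def tr {m : ℕ} {κ : Type} [Fintype κ] (H : κ → κ → ℝ) (β : Fin m → κ)
    (y : Fin m → ℝ) (j : κ) : ℝ := ∑ b, H j b * bs β y b

theorem tr_add {m : ℕ} {κ : Type} [Fintype κ] [DecidableEq κ] {H : κ → κ → ℝ} (hH : Had H)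
    (β : Fin m → κ) (y y' w : Fin m → ℝ) (s : ℕ) (hw : (univ.filter fun i => w i ≠ 0).card ≤ s)
    (h : ∀ i, y i + y' i = 2 * w i) (j : κ) : tr H β y j + tr H β y' j ≤ 2 * s := by
  classical
  unfold tr
  rw [← sum_add_distrib]
  set S := (univ.filter fun i => w i ≠ 0).image β with hS
  have h0 : ∀ b, b ∉ S → H j b * bs β y b + H j b * bs β y' b = 0 := by
    intro b hb
    have : bs β y' b = - bs β y b := by
      apply bs_neg
      intro i hi
      have hwi : w i = 0 := by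
        by_contra hc
        exact hb (mem_image.2 ⟨i, by simp [hc], hi⟩)
      have := h i
      rw [hwi] at this
      linarith
    rw [this]
    ring
  have h1 : ∑ b, (H j b * bs β y b + H j b * bs β y' b)
      = ∑ b ∈ S, (H j b * bs β y b + H j b * bs β y' b) := by
    symm
    refine sum_subset (subset_univ _) fun b _ hb => h0 b hb
  rw [h1]
  have h2 : ∀ b ∈ S, H j b * bs β y b + H j b * bs β y' b ≤ 2 := by
    intro b _
    have a1 := abs_le.1 (show |H j b * bs β y b| ≤ 1 by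
      rw [abs_mul]
      exact mul_le_one₀ (hH.1 j b) (abs_nonneg _) (bs_abs _ _ _))
    have a2 := abs_le.1 (show |H j b * bs β y' b| ≤ 1 by
      rw [abs_mul]
      exact mul_le_one₀ (hH.1 j b) (abs_nonneg _) (bs_abs _ _ _))
    linarith [a1.2, a2.2]
  refine (sum_le_card_nsmul S _ 2 h2).trans ?_
  rw [nsmul_eq_mul]
  have h3 : (S.card : ℝ) ≤ s := by exact_mod_cast (card_image_le.trans hw)
  linarith

theorem tr_neg {m : ℕ} {κ : Type} [Fintype κ] (H : κ → κ → ℝ)
    (β : Fin m → κ) (y : Fin m → ℝ) (j : κ) : tr H β (fun i => - y i) j = - tr H β y j := by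
  unfold tr
  rw [← sum_neg_distrib]
  refine sum_congr rfl fun b _ => ?_
  rw [bs_neg β y (fun i => - y i) b (fun _ _ => rfl)]
  ring

theorem exists_tr {m : ℕ} {κ : Type} [Fintype κ] [DecidableEq κ] {H : κ → κ → ℝ} (hH : Had H)
    (β : Fin m → κ) (hβ : ∀ b, (univ.filter fun i => β i = b).card ≤ 8) (y : Fin m → ℝ) (s : ℕ)
    (hy : 8 * s ^ 2 < (univ.filter fun i => y i ≠ 0).card) : ∃ j, (s : ℝ) < |tr H β y j| := by
  classical
  by_contra hcon
  push Not at hcon
  set S := (univ.filter fun i => y i ≠ 0).image β with hS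
  have h1 : (univ.filter fun i => y i ≠ 0).card ≤ 8 * S.card := by
    refine card_le_mul_card_image _ 8 fun b _ => ?_
    refine (card_le_card ?_).trans (hβ b)
    intro i hi
    simp only [mem_filter, mem_univ, true_and] at hi ⊢
    exact hi.2
  have h2 : s ^ 2 + 1 ≤ S.card := by omega
  have h3 := hH.2 (bs β y)
  have h4 : ∑ i, (∑ j, H i j * bs β y j) ^ 2 ≤ (Fintype.card κ : ℝ) * (s : ℝ) ^ 2 := by
    have : ∀ i ∈ (univ : Finset κ), (∑ j, H i j * bs β y j) ^ 2 ≤ (s : ℝ) ^ 2 := by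
      intro i _
      have := hcon i
      unfold tr at this
      exact sq_le_sq' (by linarith [(abs_le.1 this).1]) (abs_le.1 this).2
    refine (sum_le_card_nsmul _ _ _ this).trans ?_
    rw [nsmul_eq_mul, card_univ]
  have h5 : ((S.card : ℕ) : ℝ) ≤ ∑ j, bs β y j ^ 2 := by
    have e : ((S.card : ℕ) : ℝ) = ∑ b ∈ S, bs β y b ^ 2 := by
      rw [card_eq_sum_ones]
      push_cast
      refine sum_congr rfl fun b hb => ?_
      obtain ⟨i, hi, hb'⟩ := mem_image.1 hb
      rw [bs_sq β y b ⟨i, hb', (mem_filter.1 hi).2⟩]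
    rw [e]
    exact sum_le_sum_of_subset_of_nonneg (subset_univ _) fun b _ _ => sq_nonneg _
  have hc : 0 < Fintype.card κ := by
    have : 0 < S.card := by omega
    obtain ⟨b, _⟩ := card_pos.1 this
    exact Fintype.card_pos_iff.2 ⟨b⟩
  have hc' : (0 : ℝ) < Fintype.card κ := by exact_mod_cast hc
  rw [h3] at h4
  have h6 := le_of_mul_le_mul_left h4 hc'
  have h7 : ((s ^ 2 + 1 : ℕ) : ℝ) ≤ (S.card : ℝ) := by exact_mod_cast h2
  push_cast at h7
  linarith

end Pool.Agent.H12D
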